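import Pool.Agent.H23.SM.Targets

/-!
# Row CN: the number of the frequencies in a box
-/

set_option autoImplicit false

open NumberField NumberField.InfinitePlace MeasureTheory Set Filter Complex
open scoped nonZeroDivisors ENNReal

namespace Pool.Agent.H48.SM.CN

open Pool.Agent.H27.TM Pool.Agent.H23.SM
open Pool.Agent.H29.DW (Rl rv)
open Pool.Agent.H31.SW (PP)

theorem pf_CN (hCL : M_CL) : S_CN := by
  intro n hn
  obtain ⟨C, hC, h⟩ := hCL n hn
  refine ⟨C, hC, ?_⟩
  intro K _ _ hK ι J c G H hGH hR hclo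
  have hPP : ∀ R : InfinitePlace K → ℝ, (∀ v, 1 ≤ R v) → 0 < PP R := fun R hR => by
    unfold PP
    exact Finset.prod_pos fun v _ => pow_pos (by linarith [hR v]) _
  rcases J.eq_empty_or_nonempty with rfl | ⟨j0, hj0⟩
  · refine ⟨fun _ => 0, ?_, fun i hi => absurd hi (Finset.notMem_empty i)⟩
    have h1 := hPP H (fun v => (hGH v).1.trans (hGH v).2)
    have h2 := hPP G (fun v => (hGH v).1)
    rw [Finset.image_empty, Finset.card_empty, Nat.cast_zero]
    positivity
  · obtain ⟨bl, h1, h2⟩ := h K hK ι J (fun j v => c j v - c j0 v) H G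
      (fun v => ⟨by linarith [(hGH v).1], (hGH v).2⟩) (fun j hj v => ⟨fun hv => by
        have e1 := hR j hj v hv
        have e2 := hR j0 hj0 v hv
        rw [Complex.sub_im, e1, e2, sub_zero], hclo j hj j0 hj0 v⟩)
    refine ⟨bl, h1, fun i hi j hj hij v => ?_⟩
    have h3 := h2 i hi j hj hij v
    have h4 : c i v - c j0 v - (c j v - c j0 v) = c i v - c j v := by ring
    rwa [h4] at h3

end Pool.Agent.H48.SM.CN
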